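import Pool.Agent.TH998.Exp.Main

/-!
# Expansions with crosscut number three have quadratic Turán numbers

For every finite graph `G` whose 3-uniform expansion `G⁺` has crosscut number three,
`ex_3(n, G⁺)` is of order exactly `n ^ 2`.
-/

open Filter Asymptotics Pool.Agent.TH998.Exp

namespace Pool.Agent.Results.MP_e3cf1a_co.QuadraticOrder

theorem result (W : Type) [Finite W] (G : SimpleGraph W)
    (hσ : crosscutNumber (expansion G) = 3) :
    (fun n : ℕ => (ex3 n (expansion G) : ℝ)) =Θ[atTop] (fun n : ℕ => (n : ℝ) ^ 2) :=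
  theta G hσ

end Pool.Agent.Results.MP_e3cf1a_co.QuadraticOrder
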